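import Pool.Agent.Helper79.PN.Lem

set_option autoImplicit false

/-!
The project PN: all edges.
-/

open scoped Classical

namespace Pool.Agent.Helper79.PN

/-- the edges in opposite direction after the reflection -/
def edgEq : (Lam × ZMod 5) ≃ (Lam × ZMod 5) where
  toFun z := (-(z.1 + e z.2), z.2)
  invFun z := (-z.1 - e z.2, z.2)
  left_inv z := by
    ext1
    · show -(-(z.1 + e z.2)) - e z.2 = z.1
      abel
    · rfl
  right_inv z := by
    ext1
    · show -((-z.1 - e z.2) + e z.2) = z.1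
      abel
    · rfl

theorem edg_c {p q r : Prop} (h : ¬ (p ∧ q)) : |ind p + ind (q ∧ r)| ≤ 1 := by
  unfold ind
  by_cases hp : p
  · have hq : ¬ q := fun hq => h ⟨hp, hq⟩
    simp [hp, hq]
  · by_cases hq : q ∧ r
    · simp [hp, hq]
    · simp [hp, hq]

theorem st_EDG (hSMT : ST_SMT) (hADJ : ST_ADJ) : ST_EDG := by
  intro P a ha h4
  obtain ⟨_, hS, _, _⟩ := hSMT
  obtain ⟨_, _, hA, _⟩ := hADJ
  set F1 : Lam × ZMod 5 → ℝ := fun z =>
    (ind (P.n z.1 = 1) + ind (P.n z.1 = 2 ∧ P.h z.1 z.2 < -1 / 2)) * (a z.1 * a (z.1 + e z.2))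
    with hF1
  set F2 : Lam × ZMod 5 → ℝ := fun z =>
    (ind (P.n z.1 = 3) + ind (P.n z.1 = 2 ∧ -1 / 2 < P.h z.1 z.2)) * (a z.1 * a (z.1 + e z.2))
    with hF2
  have s1 : Summable F1 := by
    have h := hS a a (fun z => ind (P.n z.1 = 1) + ind (P.n z.1 = 2 ∧ P.h z.1 z.2 < -1 / 2))
      (fun _ => 0) e ha ha (fun z => edg_c (by omega))
    simp only [add_zero] at h
    exact h
  have s2 : Summable F2 := by
    have h := hS a a (fun z => ind (P.n z.1 = 3) + ind (P.n z.1 = 2 ∧ -1 / 2 < P.h z.1 z.2))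
      (fun _ => 0) e ha ha (fun z => edg_c (by omega))
    simp only [add_zero] at h
    exact h
  have e2 : ED P.mir (ng a) = ∑' z, F2 z := by
    unfold ED
    rw [← edgEq.tsum_eq]
    refine tsum_congr fun z => ?_
    obtain ⟨L, i⟩ := z
    show (ind (P.mir.n (-(L + e i)) = 1) + ind (P.mir.n (-(L + e i)) = 2 ∧
      P.mir.h (-(L + e i)) i < -1 / 2)) * (a (-(-(L + e i))) * a (-(-(L + e i) + e i))) =
      (ind (P.n L = 3) + ind (P.n L = 2 ∧ -1 / 2 < P.h L i)) * (a L * a (L + e i))
    rw [Pen.mir_n, Pen.mir_h, neg_neg, show -(-(L + e i) + e i) = L by abel, P.n_add, P.h_add,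
      sub_self, cc0, mul_comm (a (L + e i))]
    have h1 : (5 - (P.n L + 1) = 1) ↔ P.n L = 3 := by omega
    have h2 : (5 - (P.n L + 1) = 2 ∧ -(P.h L i + 1) < -1 / 2) ↔ (P.n L = 2 ∧ -1 / 2 < P.h L i) := by
      constructor
      · rintro ⟨h3, h4⟩
        exact ⟨by omega, by linarith⟩
      · rintro ⟨h3, h4⟩
        exact ⟨by omega, by linarith⟩
    rw [propext h1, propext h2]
  have e1 : ED P a = ∑' z, F1 z := rfl
  rw [hA a ha, e1, e2, ← s1.tsum_add s2]
  congr 1
  refine tsum_congr fun z => ?_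
  obtain ⟨L, i⟩ := z
  show a L * a (L + e i) =
    (ind (P.n L = 1) + ind (P.n L = 2 ∧ P.h L i < -1 / 2)) * (a L * a (L + e i)) +
    (ind (P.n L = 3) + ind (P.n L = 2 ∧ -1 / 2 < P.h L i)) * (a L * a (L + e i))
  by_cases h : a L * a (L + e i) = 0
  · rw [h]
    ring
  · have hl : InV P L := by
      by_contra hn
      exact h (by rw [h4 L (Or.inl hn), zero_mul])
    have hl' : InV P (L + e i) := by
      by_contra hn
      exact h (by rw [h4 _ (Or.inl hn), mul_zero])
    have n1 := inv_lvl hl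
    have n2 := inv_lvl hl'
    rw [P.n_add] at n2
    have hc : P.n L = 1 ∨ P.n L = 2 ∨ P.n L = 3 := by omega
    rcases hc with hc | hc | hc
    · rw [ind_true hc, ind_false (fun h => by omega), ind_false (by omega),
        ind_false (fun h => by omega)]
      ring
    · have hb := nsb hc i
      rcases lt_or_gt_of_ne hb with hb' | hb'
      · rw [ind_false (by omega), ind_true ⟨hc, hb'⟩, ind_false (by omega),
          ind_false (fun h => by linarith [h.2])]
        ring
      · rw [ind_false (by omega), ind_false (fun h => by linarith [h.2]), ind_false (by omega),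
          ind_true ⟨hc, hb'⟩]
        ring
    · rw [ind_false (by omega), ind_false (fun h => by omega), ind_true hc,
        ind_false (fun h => by omega)]
      ring

end Pool.Agent.Helper79.PN
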