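import Pool.Agent.Helper79.PN.Lem

set_option autoImplicit false

/-!
EGA: ten vertices of degree 3 around a point of index 2 near the centre of its window.
-/

open scoped Classical

namespace Pool.Agent.Helper79.PN

theorem ega_T {P : Pen} {c : Lam} (hn : P.n c = 2) (hc : ∀ j, |P.h c j| < 1 / 10) (k : ZMod 5) :
    T2 P (c + e k - e (k + 1)) (k - 1) := by
  have g1 := g_gt
  have g2 := g_lt
  have b : ∀ j, -(1 / 10) < P.h c j ∧ P.h c j < 1 / 10 := fun j => abs_lt.1 (hc j)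
  obtain ⟨a0, b0⟩ := b k
  obtain ⟨a1, b1⟩ := b (k + 1)
  obtain ⟨a4, b4⟩ := b (k - 1)
  obtain ⟨a2, b2⟩ := b (k + 2)
  obtain ⟨a3, b3⟩ := b (k - 2)
  have n0 : P.n (c + e k - e (k + 1)) = 2 := by rw [P.n_sub, P.n_add, hn]; rfl
  obtain ⟨s0, s1, s4, s2, s3⟩ := P.stp c k
  obtain ⟨t0, t1, t4, t2, t3⟩ := P.stp1 (c + e k) k
  have hs := P.h_sub_add (c + e k) (k + 1)
  refine ⟨n0, (inv2 n0).2 (all5 k ?_ ?_ ?_ ?_ ?_), ?_, ?_⟩
  · rw [hs]; linarith
  · rw [hs]; linarith
  · rw [hs]; linarith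
  · rw [hs]; linarith
  · rw [hs]; linarith
  · rw [m1p2, hs]; linarith
  · rw [m1m2, hs]; linarith

theorem ega_T' {P : Pen} {c : Lam} (hn : P.n c = 2) (hc : ∀ j, |P.h c j| < 1 / 10) (k : ZMod 5) :
    T2 P (c + e k - e (k - 1)) (k + 1) := by
  have g1 := g_gt
  have g2 := g_lt
  have b : ∀ j, -(1 / 10) < P.h c j ∧ P.h c j < 1 / 10 := fun j => abs_lt.1 (hc j)
  obtain ⟨a0, b0⟩ := b k
  obtain ⟨a1, b1⟩ := b (k + 1)
  obtain ⟨a4, b4⟩ := b (k - 1)
  obtain ⟨a2, b2⟩ := b (k + 2)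
  obtain ⟨a3, b3⟩ := b (k - 2)
  have n0 : P.n (c + e k - e (k - 1)) = 2 := by rw [P.n_sub, P.n_add, hn]; rfl
  obtain ⟨s0, s1, s4, s2, s3⟩ := P.stp c k
  obtain ⟨t0, t1, t4, t2, t3⟩ := P.stp4 (c + e k) k
  have hs := P.h_sub_add (c + e k) (k - 1)
  refine ⟨n0, (inv2 n0).2 (all5 k ?_ ?_ ?_ ?_ ?_), ?_, ?_⟩
  · rw [hs]; linarith
  · rw [hs]; linarith
  · rw [hs]; linarith
  · rw [hs]; linarith
  · rw [hs]; linarith
  · rw [p1p2, hs]; linarith
  · rw [p1m2, hs]; linarith

theorem ega_ind {p q : Prop} (h : p ↔ q) : ind p = ind q := by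
  unfold ind
  simp only [h]

theorem ega_adj (hN : ST_NB2) {P : Pen} {w K : Lam} {k : ZMod 5} (hw : T2 P w k)
    (hK : InV P K) : ∑ i, (ind (K + e i = w) + ind (K - e i = w)) =
      ind (K = w - e k) + ind (K = w + e (k + 2)) + ind (K = w + e (k - 2)) := by
  have h := (hN P w k hw).2.2.2.2.2.2 (fun L => ind (K = L)) (by
    intro L hL
    exact ind_false fun h => hL (h ▸ hK))
  rw [← h]
  unfold adj
  refine Finset.sum_congr rfl fun i _ => ?_
  rw [add_comm]
  congr 1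
  · refine ega_ind ?_
    constructor
    · intro h; rw [← h]; abel
    · intro h; rw [h]; abel
  · refine ega_ind ?_
    constructor
    · intro h; rw [← h]; abel
    · intro h; rw [h]; abel

theorem ega_dg (hN : ST_NB2) {P : Pen} {w : Lam} {k : ZMod 5} (hw : T2 P w k) : dg P w = 3 := by
  obtain ⟨h1, h2, h3, -, -, -, h⟩ := hN P w k hw
  unfold dg
  rw [h _ (fun L hL => ind_false hL), ind_true h1, ind_true h2, ind_true h3]
  norm_num

theorem ega_ne : (∀ k : ZMod 5, ((e 0 - e (0 + 1) : Lam) = e k - e (k + 1)) ↔ k = 0) ∧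
    ∀ k : ZMod 5, (e 0 - e (0 + 1) : Lam) ≠ e k - e (k - 1) := by
  unfold e
  decide

theorem st_EGA (hN : ST_NB2) : ST_EGA := by
  intro P c hn hc f hf
  have hT := ega_T hn hc
  have hT' := ega_T' hn hc
  have hz : ∀ K, f K ≠ 0 → ∃ k', T2 P K k' := by
    intro K hK
    rw [hf] at hK
    obtain ⟨k, -, hk⟩ := Finset.exists_ne_zero_of_sum_ne_zero hK
    by_cases h1 : K = c + e k - e (k + 1)
    · exact ⟨k - 1, h1 ▸ hT k⟩
    · by_cases h2 : K = c + e k - e (k - 1)
      · exact ⟨k + 1, h2 ▸ hT' k⟩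
      · exfalso
        apply hk
        rw [ind_false h1, ind_false h2, sub_zero]
  refine ⟨?_, ?_, ?_, ?_⟩
  · intro K hK
    by_contra h
    obtain ⟨k', hk'⟩ := hz K h
    exact hK hk'.2.1
  · intro K hK
    obtain ⟨k', hk'⟩ := hz K hK
    exact ega_dg hN hk'
  · intro K hK
    unfold adj
    simp only [hf]
    have e1 : ∑ i, ((∑ k, (ind (K + e i = c + e k - e (k + 1)) -
        ind (K + e i = c + e k - e (k - 1)))) + ∑ k, (ind (K - e i = c + e k - e (k + 1)) -
        ind (K - e i = c + e k - e (k - 1)))) =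
        ∑ k, ∑ i, (ind (K + e i = c + e k - e (k + 1)) + ind (K - e i = c + e k - e (k + 1))) -
        ∑ k, ∑ i, (ind (K + e i = c + e k - e (k - 1)) +
          ind (K - e i = c + e k - e (k - 1))) := by
      rw [← Finset.sum_sub_distrib]
      simp only [← Finset.sum_add_distrib, ← Finset.sum_sub_distrib]
      rw [Finset.sum_comm]
      refine Finset.sum_congr rfl fun k _ => Finset.sum_congr rfl fun i _ => ?_
      ring
    rw [e1]
    simp only [ega_adj hN (hT _) hK, ega_adj hN (hT' _) hK, m1p2, m1m2, p1p2, p1m2,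
      sub_add_cancel, Finset.sum_add_distrib]
    have e2 : ∑ k, ind (K = c + e k - e (k + 1) - e (k - 1)) =
        ∑ k, ind (K = c + e k - e (k - 1) - e (k + 1)) :=
      Finset.sum_congr rfl fun k _ => by rw [sub_right_comm]
    have e3 : ∑ k, ind (K = c + e k - e (k + 1) + e (k + 2)) =
        ∑ k, ind (K = c + e k - e (k - 1) + e (k - 2)) := by
      rw [← Equiv.sum_comp (Equiv.addRight (2 : ZMod 5))
        (fun k => ind (K = c + e k - e (k - 1) + e (k - 2)))]
      refine Finset.sum_congr rfl fun k _ => ?_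
      simp only [Equiv.coe_addRight, p2m1, p2m2]
      refine ega_ind ?_
      rw [show c + e k - e (k + 1) + e (k + 2) = c + e (k + 2) - e (k + 1) + e k by abel]
    rw [e2, e3]
    ring
  · refine ⟨c + e 0 - e (0 + 1), ?_⟩
    rw [hf]
    have e1 : ∀ k, ind (c + e 0 - e (0 + 1) = c + e k - e (k + 1)) -
        ind (c + e 0 - e (0 + 1) = c + e k - e (k - 1)) = if k = 0 then 1 else 0 := by
      intro k
      have h1 : (c + e 0 - e (0 + 1) = c + e k - e (k + 1)) ↔ k = 0 := by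
        rw [add_sub_assoc, add_sub_assoc, add_right_inj]
        exact ega_ne.1 k
      have h2 : ¬ (c + e 0 - e (0 + 1) = c + e k - e (k - 1)) := by
        rw [add_sub_assoc, add_sub_assoc, add_right_inj]
        exact ega_ne.2 k
      rw [ind_false h2, sub_zero, ega_ind h1]
      unfold ind
      by_cases hk : k = 0 <;> simp [hk]
    simp only [e1]
    simp

end Pool.Agent.Helper79.PN
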