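import Pool.Agent.Helper79.PN.Lem

set_option autoImplicit false

/-!
The project PN: consequences for all vertices of degree 3.
-/

open scoped Classical

namespace Pool.Agent.Helper79.PN

/-- the conclusion -/
def TTc (P : Pen) (w : Lam) : Prop := InV P w ∧ dg P w = 3 ∧
  ∀ a : Lam → ℝ, Sup P a → (∀ K, ¬ IsT P K → a K = 0) → adj a w = 0

theorem tt_sup (P : Pen) : Sup P (fun K => ind (InV P K)) := fun _ h => ind_false h

theorem tt_adj_ng (a : Lam → ℝ) (K : Lam) : adj (ng a) (-K) = adj a K := by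
  unfold adj ng
  refine Finset.sum_congr rfl fun i _ => ?_
  rw [show -(-K + e i) = K - e i by abel, show -(-K - e i) = K + e i by abel, add_comm]

theorem tt_one (hNB1 : ST_NB1) {P : Pen} {w : Lam} {k : ZMod 5} (h : T1 P w k) : TTc P w := by
  obtain ⟨h1, h2, h3, h4, h5, h6, h7⟩ := hNB1 P w k h
  refine ⟨h.2.1, ?_, fun a ha hT => ?_⟩
  · unfold dg
    rw [h7 _ (tt_sup P)]
    simp only [ind_true h1, ind_true h2, ind_true h3]
    norm_num
  · rw [h7 a ha, hT _ h4, hT _ h5, hT _ h6]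
    norm_num

theorem tt_two (hNB2 : ST_NB2) {P : Pen} {w : Lam} {k : ZMod 5} (h : T2 P w k) : TTc P w := by
  obtain ⟨h1, h2, h3, h4, h5, h6, h7⟩ := hNB2 P w k h
  refine ⟨h.2.1, ?_, fun a ha hT => ?_⟩
  · unfold dg
    rw [h7 _ (tt_sup P)]
    simp only [ind_true h1, ind_true h2, ind_true h3]
    norm_num
  · rw [h7 a ha, hT _ h4, hT _ h5, hT _ h6]
    norm_num

theorem tt_mir {P : Pen} {w : Lam} (h : TTc P.mir (-w)) : TTc P w := by
  obtain ⟨h1, h2, h3⟩ := h
  refine ⟨inv_mir.1 h1, ?_, fun a ha hT => ?_⟩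
  · rw [← h2]
    unfold dg
    rw [← tt_adj_ng]
    unfold adj ng
    refine Finset.sum_congr rfl fun i _ => ?_
    show ind (InV P (-(-w + e i))) + ind (InV P (-(-w - e i))) =
      ind (InV P.mir (-w + e i)) + ind (InV P.mir (-w - e i))
    rw [inv_mir', inv_mir']
  · rw [← tt_adj_ng]
    refine h3 (ng a) ?_ ?_
    · intro K hK
      exact ha _ fun h => hK (inv_mir'.2 h)
    · intro K hK
      exact hT _ fun h => hK (isT_mir'.2 h)

theorem st_TT (hNB1 : ST_NB1) (hNB2 : ST_NB2) : ST_TT := by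
  intro P w hw
  obtain ⟨k, h | h | h | h⟩ := hw
  · exact tt_one hNB1 h
  · exact tt_two hNB2 h
  · exact tt_mir (tt_two hNB2 h)
  · exact tt_mir (tt_one hNB1 h)

end Pool.Agent.Helper79.PN
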