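import Pool.Agent.Helper79.PN.NB1
import Pool.Agent.Helper79.PN.EGA
import Pool.Agent.Helper97.PN.ADJ
import Pool.Agent.Helper97.PN.NB2
import Pool.Agent.Helper97.PN.SMT
import Pool.Agent.Helper14.PN.BEL
import Pool.Agent.Helper14.PN.BLB
import Pool.Agent.Helper38.PN.BU2
import Pool.Agent.Helper85.PN.DEN
import Pool.Agent.Helper7.PN.E12
import Pool.Agent.Helper2.PN.EIG
import Pool.Agent.Helper71.PN.INQ
import Pool.Agent.Helper63.PN.LBD
import Pool.Agent.Helper8.PN.LBL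
import Pool.Agent.Helper8.PN.NSX
import Pool.Agent.Helper3.PN.NBX
import Pool.Agent.Helper3.PN.SPC
import Pool.Agent.Helper3.PN.UNI
import Pool.Agent.Helper35.PN.PEN
import Pool.Agent.Helper61.PN.POS
import Pool.Agent.Helper45.PN.RES
import Pool.Agent.Helper81.PN.BLX
import Pool.Agent.Helper84.PN.BT
import Pool.Agent.Helper20.PN.BU1
import Pool.Agent.Helper78.PN.E23
import Pool.Agent.Helper52.PN.LOW
import Pool.Agent.Helper88.PN.EXP
import Pool.Agent.Helper88.PN.OPX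
import Pool.Agent.Helper79.PN.EDG
import Pool.Agent.Helper79.PN.TT

set_option autoImplicit false

/-!
The project PN: assembly.
-/

open scoped Classical

namespace Pool.Agent.Helper79.PN

theorem fin_SMT : ST_SMT := Pool.Agent.Helper97.PN.st_SMT

theorem fin_ADJ : ST_ADJ := Pool.Agent.Helper97.PN.st_ADJ fin_SMT

theorem fin_NB2 : ST_NB2 := Pool.Agent.Helper97.PN.st_NB2

theorem fin_TT : ST_TT := st_TT st_NB1 fin_NB2

theorem fin_LOW : ST_LOW :=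
  Pool.Agent.Helper52.PN.st_LOW fin_SMT Pool.Agent.Helper7.PN.st_E12 Pool.Agent.Helper78.PN.st_E23

theorem fin_EDG : ST_EDG := st_EDG fin_SMT fin_ADJ

theorem fin_BLX : ST_BLX :=
  Pool.Agent.Helper81.PN.st_BLX fin_SMT st_NB1 fin_NB2 fin_TT Pool.Agent.Helper61.PN.st_POS

theorem fin_EXP : ST_EXP :=
  Pool.Agent.Helper88.PN.st_EXP fin_SMT fin_ADJ fin_LOW fin_EDG fin_BLX fin_TT

theorem fin_LBL : ST_LBL := Pool.Agent.Helper8.PN.st_LBL fin_SMT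

theorem fin_LBD : ST_LBD :=
  Pool.Agent.Helper63.PN.st_LBD fin_SMT fin_ADJ fin_LBL st_BT
    Pool.Agent.Helper20.PN.st_BU1 Pool.Agent.Helper38.PN.st_BU2

theorem fin_INQ : ST_INQ :=
  Pool.Agent.Helper71.PN.st_INQ fin_SMT fin_ADJ fin_EXP fin_LBD Pool.Agent.Helper14.PN.st_BLB

theorem fin_EGA : ST_EGA := st_EGA fin_NB2

theorem fin_NBX : ST_NBX := Pool.Agent.Helper3.PN.st_NBX

theorem fin_PEN : ST_PEN := Pool.Agent.Helper35.PN.st_PEN

theorem fin_OPX : ST_OPX := Pool.Agent.Helper88.PN.st_OPX fin_NBX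

theorem fin_RES : ST_RES :=
  Pool.Agent.Helper45.PN.st_RES fin_PEN fin_OPX fin_NBX fin_INQ Pool.Agent.Helper3.PN.st_UNI

theorem fin_DEN : ST_DEN := Pool.Agent.Helper85.PN.st_DEN

theorem fin_EIG : ST_EIG := Pool.Agent.Helper2.PN.st_EIG fin_PEN fin_NBX fin_EGA fin_DEN

theorem fin_BEL : ST_BEL :=
  Pool.Agent.Helper14.PN.st_BEL fin_PEN fin_NBX fin_OPX Pool.Agent.Helper3.PN.st_SPC fin_DEN

theorem fin_NSX : ST_NSX := Pool.Agent.Helper8.PN.st_NSX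

/-- the spectral gap of the Laplacian of the rhombic Penrose tilings -/
theorem fin_gap : (∃ θ : ℂ, NonSing θ) ∧ ∀ θ : ℂ, NonSing θ →
    ∃ H : Hil θ →L[ℂ] Hil θ, IsLap θ H ∧ IsSelfAdjoint H ∧
      (∀ H' : Hil θ →L[ℂ] Hil θ, IsLap θ H' → H' = H) ∧
      (∀ E : ℝ, -16 / 5 ≤ E → E < -3 → (E : ℂ) ∉ spectrum ℂ H) ∧
      (∃ ψ : Hil θ, ψ ≠ 0 ∧ H ψ = (-3 : ℂ) • ψ) ∧
      ∃ E : ℝ, E < -16 / 5 ∧ (E : ℂ) ∈ spectrum ℂ H := by
  refine ⟨fin_NSX, fun θ hθ => ?_⟩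
  obtain ⟨H, h1, h2, h3⟩ := fin_OPX θ
  exact ⟨H, h1, h2, h3, fun E => fin_RES θ H E hθ h1, fin_EIG θ H hθ h1, fin_BEL θ H hθ h1⟩

end Pool.Agent.Helper79.PN
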