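import Pool.Agent.Helper79.PN.StmtsB

set_option autoImplicit false

/-!
Basic lemmas for the project PN.
-/

open scoped Classical

namespace Pool.Agent.Helper79.PN

theorem g_sq : g * g = g + 1 := by
  unfold g
  have h : √5 * √5 = 5 := Real.mul_self_sqrt (by norm_num)
  nlinarith

theorem g_gt : 1.618 < g := by
  unfold g
  have h : (2.236 : ℝ) < √5 := by
    rw [Real.lt_sqrt (by norm_num)]
    norm_num
  linarith

theorem g_lt : g < 1.6181 := by
  unfold g
  have h : √5 < 2.2361 := by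
    rw [Real.sqrt_lt' (by norm_num)]
    norm_num
  linarith

theorem cc0 : cc 0 = 1 := by simp [cc]
theorem cc1 : cc 1 = (g - 1) / 2 := by
  unfold cc
  rw [if_neg (by decide), if_pos (by decide)]
theorem cc2 : cc 2 = -g / 2 := by
  unfold cc
  rw [if_neg (by decide), if_neg (by decide)]
theorem cc3 : cc 3 = -g / 2 := by
  unfold cc
  rw [if_neg (by decide), if_neg (by decide)]
theorem cc4 : cc 4 = (g - 1) / 2 := by
  unfold cc
  rw [if_neg (by decide), if_pos (by decide)]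
theorem cc1' : cc (-1) = (g - 1) / 2 := cc4
theorem cc2' : cc (-2) = -g / 2 := cc3

theorem ind_nonneg (p : Prop) : 0 ≤ ind p := by unfold ind; split_ifs <;> norm_num
theorem ind_le_one (p : Prop) : ind p ≤ 1 := by unfold ind; split_ifs <;> norm_num
theorem ind_true {p : Prop} (h : p) : ind p = 1 := if_pos h
theorem ind_false {p : Prop} (h : ¬ p) : ind p = 0 := if_neg h

namespace Pen

variable (P : Pen)

theorem n_sub (K : Lam) (i : ZMod 5) : P.n (K - e i) = P.n K - 1 := by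
  have h := P.n_add (K - e i) i
  rw [sub_add_cancel] at h
  omega

theorem h_sub (K : Lam) (i j : ZMod 5) : P.h (K - e i) j = P.h K j - cc (i - j) := by
  have h := P.h_add (K - e i) i j
  rw [sub_add_cancel] at h
  linarith

theorem mir_n (K : Lam) : P.mir.n K = 5 - P.n (-K) := rfl
theorem mir_h (K : Lam) (j : ZMod 5) : P.mir.h K j = -P.h (-K) j := rfl

theorem mir_mir : P.mir.mir = P := by
  obtain ⟨n, h, a, b, c, d1, d2, d3, d4⟩ := P
  unfold Pen.mir
  simp only [neg_neg, sub_sub_cancel]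

/-- the values of `h K` around `k` -/
theorem rel0 (K : Lam) (k : ZMod 5) :
    P.h K (k + 1) + P.h K (k - 1) = (g - 1) * P.h K k ∧
    P.h K (k + 2) + P.h K k = (g - 1) * P.h K (k + 1) ∧
    P.h K k + P.h K (k - 2) = (g - 1) * P.h K (k - 1) ∧
    P.h K (k - 2) + P.h K (k + 1) = (g - 1) * P.h K (k + 2) ∧
    P.h K (k - 1) + P.h K (k + 2) = (g - 1) * P.h K (k - 2) := by
  have h1 := P.rel K k
  have h2 := P.rel K (k + 1)
  have h3 := P.rel K (k - 1)
  have h4 := P.rel K (k + 2)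
  have h5 := P.rel K (k - 2)
  have e1 : k + 1 + 1 = k + 2 := by ring
  have e2 : k + 1 - 1 = k := by ring
  have e3 : k - 1 + 1 = k := by ring
  have e4 : k - 1 - 1 = k - 2 := by ring
  have e5 : k + 2 + 1 = k - 2 := by
    have h : (5 : ZMod 5) = 0 := rfl
    linear_combination h
  have e6 : k + 2 - 1 = k + 1 := by ring
  have e7 : k - 2 + 1 = k - 1 := by ring
  have e8 : k - 2 - 1 = k + 2 := by
    have h : (5 : ZMod 5) = 0 := rfl
    linear_combination -h
  rw [e1, e2] at h2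
  rw [e3, e4] at h3
  rw [e5, e6] at h4
  rw [e7, e8] at h5
  exact ⟨h1, h2, h3, h4, h5⟩

/-- the two opposite values -/
theorem rel2 (K : Lam) (k : ZMod 5) : P.h K (k + 2) + P.h K (k - 2) = -(g * P.h K k) := by
  obtain ⟨h1, h2, h3, -, -⟩ := P.rel0 K k
  have h4 := g_sq
  have h5 : P.h K (k + 2) + P.h K (k - 2) =
    (g - 1) * (P.h K (k + 1) + P.h K (k - 1)) - 2 * P.h K k := by linarith
  rw [h5, h1]
  linear_combination P.h K k * h4

/-- All linear relations over `ℚ` between the numbers `h K j` and `g * h K j`. -/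
theorem relg (K : Lam) (k : ZMod 5) :
    g * P.h K (k + 1) + g * P.h K (k - 1) = P.h K k ∧
    g * P.h K (k + 2) + g * P.h K k = P.h K (k + 1) ∧
    g * P.h K k + g * P.h K (k - 2) = P.h K (k - 1) ∧
    g * P.h K (k - 2) + g * P.h K (k + 1) = P.h K (k + 2) ∧
    g * P.h K (k - 1) + g * P.h K (k + 2) = P.h K (k - 2) := by
  obtain ⟨h1, h2, h3, h4, h5⟩ := P.rel0 K k
  have h := g_sq
  have key : ∀ a b c : ℝ, a + b = (g - 1) * c → g * a + g * b = c := by
    intro a b c hab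
    have : g * a + g * b = g * (a + b) := by ring
    rw [this, hab]
    linear_combination c * h
  exact ⟨key _ _ _ h1, key _ _ _ h2, key _ _ _ h3, key _ _ _ h4, key _ _ _ h5⟩

/-- values after a step in the direction `k` -/
theorem stp (K : Lam) (k : ZMod 5) :
    P.h (K + e k) k = P.h K k + 1 ∧
    P.h (K + e k) (k + 1) = P.h K (k + 1) + (g - 1) / 2 ∧
    P.h (K + e k) (k - 1) = P.h K (k - 1) + (g - 1) / 2 ∧
    P.h (K + e k) (k + 2) = P.h K (k + 2) - g / 2 ∧
    P.h (K + e k) (k - 2) = P.h K (k - 2) - g / 2 := by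
  refine ⟨?_, ?_, ?_, ?_, ?_⟩
  · rw [P.h_add, sub_self, cc0]
  · rw [P.h_add, sub_add_cancel_left, cc1']
  · rw [P.h_add, sub_sub_cancel, cc1]
  · rw [P.h_add, sub_add_cancel_left, cc2']; ring
  · rw [P.h_add, sub_sub_cancel, cc2]; ring

/-- values after a step in the direction `k + 1` -/
theorem stp1 (K : Lam) (k : ZMod 5) :
    P.h (K + e (k + 1)) k = P.h K k + (g - 1) / 2 ∧
    P.h (K + e (k + 1)) (k + 1) = P.h K (k + 1) + 1 ∧
    P.h (K + e (k + 1)) (k - 1) = P.h K (k - 1) - g / 2 ∧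
    P.h (K + e (k + 1)) (k + 2) = P.h K (k + 2) + (g - 1) / 2 ∧
    P.h (K + e (k + 1)) (k - 2) = P.h K (k - 2) - g / 2 := by
  refine ⟨?_, ?_, ?_, ?_, ?_⟩
  · rw [P.h_add, show k + 1 - k = 1 by ring, cc1]
  · rw [P.h_add, sub_self, cc0]
  · rw [P.h_add, show k + 1 - (k - 1) = 2 by ring, cc2]; ring
  · rw [P.h_add, show k + 1 - (k + 2) = -1 by ring, cc1']
  · rw [P.h_add, show k + 1 - (k - 2) = 3 by ring, cc3]; ring

/-- values after a step in the direction `k - 1` -/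
theorem stp4 (K : Lam) (k : ZMod 5) :
    P.h (K + e (k - 1)) k = P.h K k + (g - 1) / 2 ∧
    P.h (K + e (k - 1)) (k + 1) = P.h K (k + 1) - g / 2 ∧
    P.h (K + e (k - 1)) (k - 1) = P.h K (k - 1) + 1 ∧
    P.h (K + e (k - 1)) (k + 2) = P.h K (k + 2) - g / 2 ∧
    P.h (K + e (k - 1)) (k - 2) = P.h K (k - 2) + (g - 1) / 2 := by
  have h5 : (5 : ZMod 5) = 0 := rfl
  refine ⟨?_, ?_, ?_, ?_, ?_⟩
  · rw [P.h_add, show k - 1 - k = -1 by ring, cc1']
  · rw [P.h_add, show k - 1 - (k + 1) = -2 by ring, cc2']; ring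
  · rw [P.h_add, sub_self, cc0]
  · rw [P.h_add, show k - 1 - (k + 2) = 2 by linear_combination -h5, cc2]; ring
  · rw [P.h_add, show k - 1 - (k - 2) = 1 by ring, cc1]

/-- values after a step in the direction `k + 2` -/
theorem stp2 (K : Lam) (k : ZMod 5) :
    P.h (K + e (k + 2)) k = P.h K k - g / 2 ∧
    P.h (K + e (k + 2)) (k + 1) = P.h K (k + 1) + (g - 1) / 2 ∧
    P.h (K + e (k + 2)) (k - 1) = P.h K (k - 1) - g / 2 ∧
    P.h (K + e (k + 2)) (k + 2) = P.h K (k + 2) + 1 ∧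
    P.h (K + e (k + 2)) (k - 2) = P.h K (k - 2) + (g - 1) / 2 := by
  refine ⟨?_, ?_, ?_, ?_, ?_⟩
  · rw [P.h_add, show k + 2 - k = 2 by ring, cc2]; ring
  · rw [P.h_add, show k + 2 - (k + 1) = 1 by ring, cc1]
  · rw [P.h_add, show k + 2 - (k - 1) = 3 by ring, cc3]; ring
  · rw [P.h_add, sub_self, cc0]
  · rw [P.h_add, show k + 2 - (k - 2) = 4 by ring, cc4]

/-- values after a step in the direction `k - 2` -/
theorem stp3 (K : Lam) (k : ZMod 5) :
    P.h (K + e (k - 2)) k = P.h K k - g / 2 ∧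
    P.h (K + e (k - 2)) (k + 1) = P.h K (k + 1) - g / 2 ∧
    P.h (K + e (k - 2)) (k - 1) = P.h K (k - 1) + (g - 1) / 2 ∧
    P.h (K + e (k - 2)) (k + 2) = P.h K (k + 2) + (g - 1) / 2 ∧
    P.h (K + e (k - 2)) (k - 2) = P.h K (k - 2) + 1 := by
  have h5 : (5 : ZMod 5) = 0 := rfl
  refine ⟨?_, ?_, ?_, ?_, ?_⟩
  · rw [P.h_add, show k - 2 - k = -2 by ring, cc2']; ring
  · rw [P.h_add, show k - 2 - (k + 1) = 2 by linear_combination -h5, cc2]; ring
  · rw [P.h_add, show k - 2 - (k - 1) = -1 by ring, cc1']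
  · rw [P.h_add, show k - 2 - (k + 2) = 1 by linear_combination -h5, cc1]
  · rw [P.h_add, sub_self, cc0]

/-- The same for steps back: for every direction `i` the values at `K - e i` are obtained from
those at `K` by subtracting the increments. -/
theorem h_sub_add (K : Lam) (i j : ZMod 5) :
    P.h (K - e i) j = P.h K j - (P.h (K + e i) j - P.h K j) := by
  rw [P.h_sub, P.h_add]; ring

end Pen

/-- every index is `k, k + 1, k - 1, k + 2` or `k - 2` -/
theorem all5 (k : ZMod 5) {p : ZMod 5 → Prop} (h0 : p k) (h1 : p (k + 1)) (h4 : p (k - 1))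
    (h2 : p (k + 2)) (h3 : p (k - 2)) (j : ZMod 5) : p j := by
  have key : ∀ k j : ZMod 5, j = k ∨ j = k + 1 ∨ j = k - 1 ∨ j = k + 2 ∨ j = k - 2 := by decide
  rcases key k j with h | h | h | h | h <;> rw [h] <;> assumption

theorem cas5 (k j : ZMod 5) : j = k ∨ j = k + 1 ∨ j = k - 1 ∨ j = k + 2 ∨ j = k - 2 := by
  revert k j
  decide

section idx

variable (k : ZMod 5)

theorem p1p1 : k + 1 + 1 = k + 2 := by revert k; decide
theorem p1m1 : k + 1 - 1 = k := by revert k; decide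
theorem p1p2 : k + 1 + 2 = k - 2 := by revert k; decide
theorem p1m2 : k + 1 - 2 = k - 1 := by revert k; decide
theorem m1p1 : k - 1 + 1 = k := by revert k; decide
theorem m1m1 : k - 1 - 1 = k - 2 := by revert k; decide
theorem m1p2 : k - 1 + 2 = k + 1 := by revert k; decide
theorem m1m2 : k - 1 - 2 = k + 2 := by revert k; decide
theorem p2p1 : k + 2 + 1 = k - 2 := by revert k; decide
theorem p2m1 : k + 2 - 1 = k + 1 := by revert k; decide
theorem p2p2 : k + 2 + 2 = k - 1 := by revert k; decide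
theorem p2m2 : k + 2 - 2 = k := by revert k; decide
theorem m2p1 : k - 2 + 1 = k - 1 := by revert k; decide
theorem m2m1 : k - 2 - 1 = k + 2 := by revert k; decide
theorem m2p2 : k - 2 + 2 = k := by revert k; decide
theorem m2m2 : k - 2 - 2 = k + 1 := by revert k; decide

end idx

/-- multiples of an inequality -/
theorem gm {a b : ℝ} (h : a < b) : g * a < g * b ∧ (g - 1) * a < (g - 1) * b := by
  have h1 := g_gt
  exact ⟨mul_lt_mul_of_pos_left h (by linarith), mul_lt_mul_of_pos_left h (by linarith)⟩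

/-- sums over the indices -/
theorem sum5 (k : ZMod 5) (F : ZMod 5 → ℝ) :
    ∑ j, F j = F k + F (k + 1) + F (k - 1) + F (k + 2) + F (k - 2) := by
  have h : ∑ j, F j = ∑ j, F (k + j) := (Equiv.sum_comp (Equiv.addLeft k) F).symm
  have h4 : k + 4 = k - 1 := by
    have h5 : (5 : ZMod 5) = 0 := rfl
    linear_combination h5
  have h3 : k + 3 = k - 2 := by
    have h5 : (5 : ZMod 5) = 0 := rfl
    linear_combination h5
  rw [h, show (Finset.univ : Finset (ZMod 5)) = {0, 1, 2, 3, 4} from rfl]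
  rw [Finset.sum_insert (by decide), Finset.sum_insert (by decide), Finset.sum_insert (by decide),
    Finset.sum_insert (by decide), Finset.sum_singleton, add_zero, h3, h4]
  ring

theorem inv1 {P : Pen} {K : Lam} (h : P.n K = 1) : InV P K ↔ ∀ j, -g / 2 < P.h K j := by
  unfold InV
  constructor
  · rintro (⟨-, h1⟩ | ⟨h1, -⟩ | ⟨h1, -⟩ | ⟨h1, -⟩)
    · exact h1
    all_goals omega
  · exact fun h1 => Or.inl ⟨h, h1⟩

theorem inv2 {P : Pen} {K : Lam} (h : P.n K = 2) : InV P K ↔ ∀ j, P.h K j < (g + 1) / 2 := by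
  unfold InV
  constructor
  · rintro (⟨h1, -⟩ | ⟨-, h1⟩ | ⟨h1, -⟩ | ⟨h1, -⟩)
    · omega
    · exact h1
    all_goals omega
  · exact fun h1 => Or.inr (Or.inl ⟨h, h1⟩)

theorem inv3 {P : Pen} {K : Lam} (h : P.n K = 3) : InV P K ↔ ∀ j, -(g + 1) / 2 < P.h K j := by
  unfold InV
  constructor
  · rintro (⟨h1, -⟩ | ⟨h1, -⟩ | ⟨-, h1⟩ | ⟨h1, -⟩)
    · omega
    · omega
    · exact h1
    · omega
  · exact fun h1 => Or.inr (Or.inr (Or.inl ⟨h, h1⟩))

theorem inv4 {P : Pen} {K : Lam} (h : P.n K = 4) : InV P K ↔ ∀ j, P.h K j < g / 2 := by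
  unfold InV
  constructor
  · rintro (⟨h1, -⟩ | ⟨h1, -⟩ | ⟨h1, -⟩ | ⟨-, h1⟩)
    · omega
    · omega
    · omega
    · exact h1
  · exact fun h1 => Or.inr (Or.inr (Or.inr ⟨h, h1⟩))

/-- bounds in the first window, with their multiples by `g` and `g - 1` -/
theorem w1 {P : Pen} {K : Lam} (h : P.n K = 1) (hv : InV P K) (j : ZMod 5) :
    -g / 2 < P.h K j ∧ -(g + 1) / 2 < g * P.h K j ∧ -1 / 2 < (g - 1) * P.h K j ∧
    P.h K j < 1 ∧ g * P.h K j < g ∧ (g - 1) * P.h K j < g - 1 := by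
  have hs := g_sq
  rw [inv1 h] at hv
  obtain ⟨c1, c2⟩ := gm (hv j)
  have e1 : g * (-g / 2) = -(g + 1) / 2 := by linear_combination (-1 / 2) * hs
  have e2 : (g - 1) * (-g / 2) = -1 / 2 := by linear_combination (-1 / 2) * hs
  rw [e1] at c1
  rw [e2] at c2
  have h2 := P.rel2 K j
  have h3 : g * P.h K j < g := by linarith [hv (j + 2), hv (j - 2)]
  obtain ⟨-, h4⟩ := gm h3
  have e3 : (g - 1) * (g * P.h K j) = P.h K j := by linear_combination (P.h K j) * hs
  have e4 : (g - 1) * g = 1 := by linear_combination hs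
  rw [e3, e4] at h4
  obtain ⟨-, h5⟩ := gm h4
  rw [mul_one] at h5
  exact ⟨hv j, c1, c2, h4, h3, h5⟩

/-- bounds in the second window, with their multiples by `g` and `g - 1` -/
theorem w2 {P : Pen} {K : Lam} (h : P.n K = 2) (hv : InV P K) (j : ZMod 5) :
    P.h K j < (g + 1) / 2 ∧ g * P.h K j < (2 * g + 1) / 2 ∧ (g - 1) * P.h K j < g / 2 ∧
    -g < P.h K j ∧ -(g + 1) < g * P.h K j ∧ -1 < (g - 1) * P.h K j := by
  have hs := g_sq
  rw [inv2 h] at hv
  obtain ⟨c1, c2⟩ := gm (hv j)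
  have e1 : g * ((g + 1) / 2) = (2 * g + 1) / 2 := by linear_combination (1 / 2) * hs
  have e2 : (g - 1) * ((g + 1) / 2) = g / 2 := by linear_combination (1 / 2) * hs
  rw [e1] at c1
  rw [e2] at c2
  have h2 := P.rel2 K j
  have h3 : -(g + 1) < g * P.h K j := by linarith [hv (j + 2), hv (j - 2)]
  obtain ⟨-, h4⟩ := gm h3
  have e3 : (g - 1) * (g * P.h K j) = P.h K j := by linear_combination (P.h K j) * hs
  have e4 : (g - 1) * -(g + 1) = -g := by linear_combination -hs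
  rw [e3, e4] at h4
  obtain ⟨-, h5⟩ := gm h4
  have e5 : (g - 1) * -g = -1 := by linear_combination -hs
  rw [e5] at h5
  exact ⟨hv j, c1, c2, h4, h3, h5⟩

theorem inv_lvl {P : Pen} {K : Lam} (h : InV P K) : 1 ≤ P.n K ∧ P.n K ≤ 4 := by
  rcases h with ⟨h, -⟩ | ⟨h, -⟩ | ⟨h, -⟩ | ⟨h, -⟩ <;> omega

theorem inv_mir {P : Pen} {K : Lam} : InV P.mir (-K) ↔ InV P K := by
  unfold InV
  simp only [Pen.mir_n, Pen.mir_h, neg_neg]
  constructor
  · rintro (⟨h, h1⟩ | ⟨h, h1⟩ | ⟨h, h1⟩ | ⟨h, h1⟩)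
    · exact Or.inr (Or.inr (Or.inr ⟨by omega, fun j => by linarith [h1 j]⟩))
    · exact Or.inr (Or.inr (Or.inl ⟨by omega, fun j => by linarith [h1 j]⟩))
    · exact Or.inr (Or.inl ⟨by omega, fun j => by linarith [h1 j]⟩)
    · exact Or.inl ⟨by omega, fun j => by linarith [h1 j]⟩
  · rintro (⟨h, h1⟩ | ⟨h, h1⟩ | ⟨h, h1⟩ | ⟨h, h1⟩)
    · exact Or.inr (Or.inr (Or.inr ⟨by omega, fun j => by linarith [h1 j]⟩))
    · exact Or.inr (Or.inr (Or.inl ⟨by omega, fun j => by linarith [h1 j]⟩))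
    · exact Or.inr (Or.inl ⟨by omega, fun j => by linarith [h1 j]⟩)
    · exact Or.inl ⟨by omega, fun j => by linarith [h1 j]⟩

theorem inv_mir' {P : Pen} {K : Lam} : InV P.mir K ↔ InV P (-K) := by
  have h := @inv_mir P (-K)
  rwa [neg_neg] at h

theorem isT_mir {P : Pen} {K : Lam} : IsT P.mir (-K) ↔ IsT P K := by
  unfold IsT
  rw [Pen.mir_mir, neg_neg]
  constructor
  · rintro ⟨k, h | h | h | h⟩
    · exact ⟨k, Or.inr (Or.inr (Or.inr h))⟩
    · exact ⟨k, Or.inr (Or.inr (Or.inl h))⟩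
    · exact ⟨k, Or.inr (Or.inl h)⟩
    · exact ⟨k, Or.inl h⟩
  · rintro ⟨k, h | h | h | h⟩
    · exact ⟨k, Or.inr (Or.inr (Or.inr h))⟩
    · exact ⟨k, Or.inr (Or.inr (Or.inl h))⟩
    · exact ⟨k, Or.inr (Or.inl h)⟩
    · exact ⟨k, Or.inl h⟩

theorem isT_mir' {P : Pen} {K : Lam} : IsT P.mir K ↔ IsT P (-K) := by
  have h := @isT_mir P (-K)
  rwa [neg_neg] at h

/-- vertices of degree 3 by their index -/
theorem isT_1 {P : Pen} {K : Lam} (h : P.n K = 1) : IsT P K ↔ ∃ k, T1 P K k := by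
  unfold IsT
  constructor
  · rintro ⟨k, h1 | h1 | h1 | h1⟩
    · exact ⟨k, h1⟩
    · exact absurd h1.1 (by omega)
    · exact absurd h1.1 (by rw [Pen.mir_n, neg_neg]; omega)
    · exact absurd h1.1 (by rw [Pen.mir_n, neg_neg]; omega)
  · rintro ⟨k, h1⟩
    exact ⟨k, Or.inl h1⟩

theorem isT_2 {P : Pen} {K : Lam} (h : P.n K = 2) : IsT P K ↔ ∃ k, T2 P K k := by
  unfold IsT
  constructor
  · rintro ⟨k, h1 | h1 | h1 | h1⟩
    · exact absurd h1.1 (by omega)
    · exact ⟨k, h1⟩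
    · exact absurd h1.1 (by rw [Pen.mir_n, neg_neg]; omega)
    · exact absurd h1.1 (by rw [Pen.mir_n, neg_neg]; omega)
  · rintro ⟨k, h1⟩
    exact ⟨k, Or.inr (Or.inl h1)⟩

theorem isT_3 {P : Pen} {K : Lam} (h : P.n K = 3) : IsT P K ↔ ∃ k, T2 P.mir (-K) k := by
  rw [← isT_mir, isT_2 (by rw [Pen.mir_n, neg_neg]; omega)]

theorem isT_4 {P : Pen} {K : Lam} (h : P.n K = 4) : IsT P K ↔ ∃ k, T1 P.mir (-K) k := by
  rw [← isT_mir, isT_1 (by rw [Pen.mir_n, neg_neg]; omega)]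

/-! ### consequences of nonsingularity -/

theorem nsa {P : Pen} {K : Lam} (h : P.n K = 1) (j : ZMod 5) : P.h K j ≠ (g - 1) / 2 := by
  intro h1
  have h2 := P.ns2 (K + e j) j (by rw [P.n_add]; omega)
  rw [(P.stp K j).1] at h2
  exact h2 (by linarith)

theorem nsb {P : Pen} {K : Lam} (h : P.n K = 2) (j : ZMod 5) : P.h K j ≠ -1 / 2 := by
  intro h1
  have h2 := P.ns3 (K + e (j + 2)) j (by rw [P.n_add]; omega)
  rw [(P.stp2 K j).1] at h2
  exact h2 (by linarith)

theorem nsc {P : Pen} {K : Lam} (h : P.n K = 2) (j : ZMod 5) : P.h K j ≠ (2 - g) / 2 := by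
  intro h1
  have h2 := P.ns1 (K - e j) j (by rw [P.n_sub]; omega)
  rw [P.h_sub_add, (P.stp K j).1] at h2
  exact h2 (by linarith)

/-- at an index 2 point -/
theorem nsd {P : Pen} {K : Lam} (h : P.n K = 2) (j : ZMod 5) : P.h K j ≠ g - 1 := by
  intro h1
  have h2 := nsa (P := P) (K := K - e (j + 1)) (by rw [P.n_sub]; omega) j
  rw [P.h_sub_add, (P.stp1 K j).1] at h2
  exact h2 (by linarith)

end Pool.Agent.Helper79.PN
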