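import Pool.Agent.Helper79.PN.Lem

set_option autoImplicit false

/-!
NB1: neighbours of the vertices of degree 3, index 1.
-/

open scoped Classical

namespace Pool.Agent.Helper79.PN

theorem st_NB1 : ST_NB1 := by
  intro P w k h
  obtain ⟨hn, hv, h2, h3⟩ := h
  have g1 := g_gt
  have g2 := g_lt
  have v := w1 hn hv
  obtain ⟨v0, v0a, v0b, v0c, v0d, v0e⟩ := v k
  obtain ⟨v1, v1a, v1b, v1c, v1d, v1e⟩ := v (k + 1)
  obtain ⟨v4, v4a, v4b, v4c, v4d, v4e⟩ := v (k - 1)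
  obtain ⟨v2, v2a, v2b, v2c, v2d, v2e⟩ := v (k + 2)
  obtain ⟨v3, v3a, v3b, v3c, v3d, v3e⟩ := v (k - 2)
  obtain ⟨a1, a2, a3, a4, a5⟩ := P.rel0 w k
  obtain ⟨b1, b2, b3, b4, b5⟩ := P.relg w k
  have n0 : P.n (w + e k) = 2 := by rw [P.n_add, hn]; rfl
  have n1 : P.n (w + e (k + 1)) = 2 := by rw [P.n_add, hn]; rfl
  have n4 : P.n (w + e (k - 1)) = 2 := by rw [P.n_add, hn]; rfl
  have n2 : P.n (w + e (k + 2)) = 2 := by rw [P.n_add, hn]; rfl
  have n3 : P.n (w + e (k - 2)) = 2 := by rw [P.n_add, hn]; rfl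
  obtain ⟨s0, s1, s4, s2, s3⟩ := P.stp w k
  obtain ⟨t0, t1, t4, t2, t3⟩ := P.stp1 w k
  obtain ⟨u0, u1, u4, u2, u3⟩ := P.stp4 w k
  obtain ⟨p0, p1, p4, p2, p3⟩ := P.stp2 w k
  obtain ⟨q0, q1, q4, q2, q3⟩ := P.stp3 w k
  refine ⟨(inv2 n0).2 (all5 k ?_ ?_ ?_ ?_ ?_), (inv2 n1).2 (all5 k ?_ ?_ ?_ ?_ ?_),
    (inv2 n4).2 (all5 k ?_ ?_ ?_ ?_ ?_), ?_, ?_, ?_, ?_⟩
  iterate 15 linarith
  iterate 3
    first
    | rw [isT_2 n0]
    | rw [isT_2 n1]
    | rw [isT_2 n4]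
    rintro ⟨j, -, -, x, y⟩
    rcases cas5 k j with h | h | h | h | h <;> rw [h] at x y <;>
      (try simp only [p1p2, p1m2, m1p2, m1m2, p2p2, p2m2, m2p2, m2m2] at x y) <;> linarith
  · intro a ha
    have z1 : ∀ i, a (w - e i) = 0 := by
      intro i
      refine ha _ fun hi => ?_
      have := (inv_lvl hi).1
      rw [P.n_sub, hn] at this
      omega
    have z2 : a (w + e (k + 2)) = 0 := by
      refine ha _ fun hi => ?_
      have := (inv2 n2).1 hi (k + 2)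
      linarith
    have z3 : a (w + e (k - 2)) = 0 := by
      refine ha _ fun hi => ?_
      have := (inv2 n3).1 hi (k - 2)
      linarith
    unfold adj
    simp only [z1, add_zero]
    rw [sum5 k, z2, z3]
    ring

end Pool.Agent.Helper79.PN
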