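import Pool.Agent.Helper79.PN.Defs

set_option autoImplicit false

/-!
Short names for the final statement of the project PN.
-/

namespace Pool.Agent.Helper79.PN

/-- the Hilbert space `ℓ²` of the vertices -/
def Hl (θ : ℂ) : Type := lp (fun _ : Vert θ => ℂ) 2

noncomputable instance instN (θ : ℂ) : NormedAddCommGroup (Hl θ) :=
  (lp.normedAddCommGroup : NormedAddCommGroup (lp (fun _ : Vert θ => ℂ) 2))

noncomputable instance instI (θ : ℂ) : InnerProductSpace ℂ (Hl θ) :=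
  (lp.instInnerProductSpace : InnerProductSpace ℂ (lp (fun _ : Vert θ => ℂ) 2))

instance instC (θ : ℂ) : CompleteSpace (Hl θ) :=
  (inferInstance : CompleteSpace (lp (fun _ : Vert θ => ℂ) 2))

/-- bounded operators on the Hilbert space -/
abbrev Op (θ : ℂ) : Type := Hl θ →L[ℂ] Hl θ

/-- value of `ψ` at `v` -/
def Hl.val {θ : ℂ} (ψ : Hl θ) (v : Vert θ) : ℂ := (show lp (fun _ : Vert θ => ℂ) 2 from ψ) v

/-- `H` is the graph Laplacian -/
def IsLapl {θ : ℂ} (H : Op θ) : Prop := ∀ (ψ : Hl θ) (v : Vert θ),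
  (H ψ).val v = ∑ w ∈ nbV θ v, (ψ.val w - ψ.val v)

/-- `H` is self-adjoint -/
def SelfAdj {θ : ℂ} (H : Op θ) : Prop := IsSelfAdjoint H

/-- `E` is in the spectrum of `H` -/
def InSpec {θ : ℂ} (H : Op θ) (E : ℝ) : Prop := (E : ℂ) ∈ spectrum ℂ H

/-- `E` is an eigenvalue of `H` -/
def IsEig {θ : ℂ} (H : Op θ) (E : ℝ) : Prop := ∃ ψ : Hl θ, ψ ≠ 0 ∧ H ψ = (E : ℂ) • ψ

end Pool.Agent.Helper79.PN
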