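import Mathlib

set_option autoImplicit false

/-!
Definitions for MP_7c9036_mp: the graph Laplacian of the rhombic Penrose tilings.

De Bruijn's description: the vertices of the tiling with parameter `θ` are the `K ∈ ℤ⁵` whose
internal coordinate `θ + ∑ K_k ζ^k` lies in one of four regular pentagons, depending on the index
`n = ∑ K_k`: the pentagon of index `n` is the interior of the convex hull of the sums of `n`
distinct powers of `ζ`. The position of the vertex in the plane is `∑ K_k ζ^(3k)`, the edges of the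
tiling join `K` and `K + e_k`.
-/

open scoped Classical

namespace Pool.Agent.Helper79.PN

/-- the lattice `ℤ⁵` -/
abbrev Lam : Type := ZMod 5 → ℤ

/-- unit vectors -/
def e (i : ZMod 5) : Lam := Pi.single i 1

/-- the golden ratio -/
noncomputable def g : ℝ := (1 + √5) / 2

/-- primitive fifth root of unity -/
noncomputable def zeta : ℂ := Complex.exp (2 * Real.pi * Complex.I / 5)

/-- index of a lattice point -/
def lvl (K : Lam) : ℤ := ∑ k, K k

/-- internal coordinate of a lattice point -/
noncomputable def yy (θ : ℂ) (K : Lam) : ℂ := θ + ∑ k : ZMod 5, (K k : ℂ) * zeta ^ k.val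

/-- component of the internal coordinate in the direction `ζ^j` -/
noncomputable def hh (θ : ℂ) (K : Lam) (j : ZMod 5) : ℝ :=
  (yy θ K * (starRingEnd ℂ) (zeta ^ j.val)).re

/-- the lattice points accepted by the four windows (open regular pentagons) -/
def Acc (θ : ℂ) (K : Lam) : Prop :=
  (lvl K = 1 ∧ ∀ j, -g / 2 < hh θ K j) ∨ (lvl K = 2 ∧ ∀ j, hh θ K j < (g + 1) / 2) ∨
    (lvl K = 3 ∧ ∀ j, -(g + 1) / 2 < hh θ K j) ∨ (lvl K = 4 ∧ ∀ j, hh θ K j < g / 2)

/-- nonsingular parameters: no internal coordinate lies on a line bounding a window -/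
def NonSing (θ : ℂ) : Prop := ∀ (K : Lam) (j : ZMod 5),
  (lvl K = 1 → hh θ K j ≠ -g / 2) ∧ (lvl K = 2 → hh θ K j ≠ (g + 1) / 2) ∧
    (lvl K = 3 → hh θ K j ≠ -(g + 1) / 2) ∧ (lvl K = 4 → hh θ K j ≠ g / 2)

/-- the vertices of the tiling -/
abbrev Vert (θ : ℂ) : Type := {K : Lam // Acc θ K}

/-- adjacent lattice points -/
def Nb (K K' : Lam) : Prop := ∃ i, K' = K + e i ∨ K' = K - e i

/-- the neighbours of a lattice point in `ℤ⁵` -/
noncomputable def nbs (K : Lam) : Finset Lam :=
  Finset.univ.image (fun i => K + e i) ∪ Finset.univ.image (fun i => K - e i)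

/-- the neighbours of a vertex of the tiling -/
noncomputable def nbV (θ : ℂ) (v : Vert θ) : Finset (Vert θ) :=
  (nbs v.1).subtype (Acc θ)

/-- the Hilbert space -/
abbrev Hil (θ : ℂ) : Type := lp (fun _ : Vert θ => ℂ) 2

/-- `H` is the graph Laplacian of the tiling -/
def IsLap (θ : ℂ) (H : Hil θ →L[ℂ] Hil θ) : Prop :=
  ∀ (ψ : Hil θ) (v : Vert θ), (H ψ : Vert θ → ℂ) v = ∑ w ∈ nbV θ v, ((ψ : Vert θ → ℂ) w - ψ v)

end Pool.Agent.Helper79.PN
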