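import Pool.Agent.Helper79.PN.Defs

set_option autoImplicit false

/-!
Statements of the project PN (spectral gap of the Laplacian of the Penrose tilings).
-/

open scoped Classical

namespace Pool.Agent.Helper79.PN

/-- `cos (2 π k / 5)` -/
noncomputable def cc (k : ZMod 5) : ℝ :=
  if k = 0 then 1 else if k = 1 ∨ k = 4 then (g - 1) / 2 else -g / 2

/-- abstract tiling data -/
structure Pen where
  n : Lam → ℤ
  h : Lam → ZMod 5 → ℝ
  n_add : ∀ K i, n (K + e i) = n K + 1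
  h_add : ∀ K i j, h (K + e i) j = h K j + cc (i - j)
  rel : ∀ K j, h K (j + 1) + h K (j - 1) = (g - 1) * h K j
  ns1 : ∀ K j, n K = 1 → h K j ≠ -g / 2
  ns2 : ∀ K j, n K = 2 → h K j ≠ (g + 1) / 2
  ns3 : ∀ K j, n K = 3 → h K j ≠ -(g + 1) / 2
  ns4 : ∀ K j, n K = 4 → h K j ≠ g / 2

/-- the mirror image under `K ↦ -K` -/
noncomputable def Pen.mir (P : Pen) : Pen where
  n K := 5 - P.n (-K)
  h K j := -P.h (-K) j
  n_add K i := by
    have h := P.n_add (-(K + e i)) i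
    rw [show -(K + e i) + e i = -K by abel] at h
    omega
  h_add K i j := by
    have h := P.h_add (-(K + e i)) i j
    rw [show -(K + e i) + e i = -K by abel] at h
    rw [h]; ring
  rel K j := by
    have h := P.rel (-K) j
    linarith
  ns1 K j h := by
    intro h'
    exact P.ns4 (-K) j (by omega) (by linarith)
  ns2 K j h := by
    intro h'
    exact P.ns3 (-K) j (by omega) (by linarith)
  ns3 K j h := by
    intro h'
    exact P.ns2 (-K) j (by omega) (by linarith)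
  ns4 K j h := by
    intro h'
    exact P.ns1 (-K) j (by omega) (by linarith)

/-- the vertices -/
def InV (P : Pen) (K : Lam) : Prop :=
  (P.n K = 1 ∧ ∀ j, -g / 2 < P.h K j) ∨ (P.n K = 2 ∧ ∀ j, P.h K j < (g + 1) / 2) ∨
    (P.n K = 3 ∧ ∀ j, -(g + 1) / 2 < P.h K j) ∨ (P.n K = 4 ∧ ∀ j, P.h K j < g / 2)

/-- vertices of degree 3 of index 1, with neighbours `K + e (k - 1), K + e k, K + e (k + 1)` -/
def T1 (P : Pen) (K : Lam) (k : ZMod 5) : Prop :=
  P.n K = 1 ∧ InV P K ∧ (g - 1) / 2 < P.h K (k + 2) ∧ (g - 1) / 2 < P.h K (k - 2)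

/-- vertices of degree 3 of index 2, with neighbours `K - e k, K + e (k + 2), K + e (k - 2)` -/
def T2 (P : Pen) (K : Lam) (k : ZMod 5) : Prop :=
  P.n K = 2 ∧ InV P K ∧ P.h K (k + 2) < -1 / 2 ∧ P.h K (k - 2) < -1 / 2

/-- vertices of degree 3 -/
def IsT (P : Pen) (K : Lam) : Prop :=
  ∃ k, T1 P K k ∨ T2 P K k ∨ T2 P.mir (-K) k ∨ T1 P.mir (-K) k

/-- vertices of degree 4 of index 1; `K + e m` is not a vertex -/
def X1 (P : Pen) (K : Lam) (m : ZMod 5) : Prop :=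
  P.n K = 1 ∧ InV P K ∧ (g - 1) / 2 < P.h K m ∧ P.h K (m + 1) < (g - 1) / 2 ∧
    P.h K (m - 1) < (g - 1) / 2

/-- indicator -/
noncomputable def ind (p : Prop) : ℝ := if p then 1 else 0

/-- sum over the neighbours in `ℤ⁵` -/
def adj (a : Lam → ℝ) (K : Lam) : ℝ := ∑ i, (a (K + e i) + a (K - e i))

/-- degree -/
noncomputable def dg (P : Pen) (K : Lam) : ℝ := adj (fun K => ind (InV P K)) K

/-- supported on vertices -/
def Sup (P : Pen) (a : Lam → ℝ) : Prop := ∀ K, ¬ InV P K → a K = 0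

/-- supported on vertices of degree at least 4 -/
def Sup4 (P : Pen) (a : Lam → ℝ) : Prop := ∀ K, (¬ InV P K ∨ IsT P K) → a K = 0

/-- square summable -/
def Sq (a : Lam → ℝ) : Prop := Summable fun K => a K ^ 2

/-! ### vertices of degree 3 -/

/-- NB1: neighbours of the vertices of degree 3, index 1 -/
def ST_NB1 : Prop := ∀ (P : Pen) (w : Lam) (k : ZMod 5), T1 P w k →
  InV P (w + e k) ∧ InV P (w + e (k + 1)) ∧ InV P (w + e (k - 1)) ∧
  ¬ IsT P (w + e k) ∧ ¬ IsT P (w + e (k + 1)) ∧ ¬ IsT P (w + e (k - 1)) ∧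
  ∀ a : Lam → ℝ, Sup P a → adj a w = a (w + e k) + a (w + e (k + 1)) + a (w + e (k - 1))

/-- NB2: neighbours of the vertices of degree 3, index 2 -/
def ST_NB2 : Prop := ∀ (P : Pen) (w : Lam) (k : ZMod 5), T2 P w k →
  InV P (w - e k) ∧ InV P (w + e (k + 2)) ∧ InV P (w + e (k - 2)) ∧
  ¬ IsT P (w - e k) ∧ ¬ IsT P (w + e (k + 2)) ∧ ¬ IsT P (w + e (k - 2)) ∧
  ∀ a : Lam → ℝ, Sup P a → adj a w = a (w - e k) + a (w + e (k + 2)) + a (w + e (k - 2))

/-- TT: consequences for all vertices of degree 3 -/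
def ST_TT : Prop := ∀ (P : Pen) (w : Lam), IsT P w → InV P w ∧ dg P w = 3 ∧
  ∀ a : Lam → ℝ, Sup P a → (∀ K, ¬ IsT P K → a K = 0) → adj a w = 0

/-- POS: positions of the vertices of degree 3 near a vertex of degree 4 -/
def ST_POS : Prop := ∀ (P : Pen) (X : Lam) (m : ZMod 5), X1 P X m →
  T2 P (X + e (m + 1)) (m + 1) ∧ T2 P (X + e (m - 1)) (m - 1) ∧
  T2 P.mir (-(X + e (m + 2) + e (m - 2))) m

/-! ### edges -/

/-- E12: edges between index 1 and index 2 -/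
def ST_E12 : Prop := ∀ (P : Pen) (X : Lam) (i : ZMod 5), P.n X = 1 → InV P X → ¬ IsT P X →
  InV P (X + e i) → ¬ IsT P (X + e i) → ind (X1 P X (i + 2)) + ind (X1 P X (i - 2)) = 1

/-- E23: edges between index 2 and index 3 -/
def ST_E23 : Prop := ∀ (P : Pen) (K : Lam) (i : ZMod 5), P.n K = 2 → InV P K → ¬ IsT P K →
  InV P (K + e i) → ¬ IsT P (K + e i) →
  ind (X1 P (K - e (i + 2)) (i - 1)) + ind (T1 P (K - e (i + 2)) (i + 1)) =
    ind (P.h K i < -1 / 2) ∧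
  ind (X1 P (K - e (i - 2)) (i + 1)) + ind (T1 P (K - e (i - 2)) (i - 1)) =
    ind (P.h K i < -1 / 2)

/-! ### budgets -/

/-- BT: every vertex of degree 3 is used at most once -/
def ST_BT : Prop := ∀ (P : Pen) (w : Lam),
  (P.n w = 1 → ∑ m, ind (T1 P w m) ≤ ind (IsT P w)) ∧
  (P.n w = 2 → ∑ m, (ind (X1 P (w - e (m + 1)) m) + ind (X1 P (w - e (m - 1)) m) +
    ind (X1 P.mir (-(w + e (m + 2) + e (m - 2))) m)) ≤ ind (IsT P w))

/-- BU1: budget of the vertices of index 1; `p` and `q` are the costs -/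
def ST_BU1 : Prop := ∀ (P : Pen) (K : Lam) (p q : ℝ), P.n K = 1 → InV P K → ¬ IsT P K →
  0 ≤ p → 0 ≤ q →
  p * ∑ m, ind (X1 P K m) + q * ∑ m, ind (X1 P.mir (-(K + e (m + 2) + e (m - 2) + e m)) m) ≤
    dg P K - 4 + max p (5 * q - 1)

/-- BU2: budget of the vertices of index 2; `p, q` are the costs of kind II, `r, t` those of
kind I -/
def ST_BU2 : Prop := ∀ (P : Pen) (K : Lam) (p q r t : ℝ), P.n K = 2 → InV P K → ¬ IsT P K →
  0 ≤ p → 0 ≤ q → 0 ≤ r → 0 ≤ t → t ≤ 1 →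
  p * ∑ m, (ind (X1 P (K - e (m - 2)) m) + ind (X1 P (K - e (m + 2)) m)) +
    q * ∑ m, ind (X1 P.mir (-(K + e (m + 1) + e (m - 1))) m) +
    r * ∑ m, ind (T1 P.mir (-(K + e (m + 1) + e (m - 1))) m) +
    t * ∑ m, ind (T1 P (K - e m) m) ≤
    dg P K - 5 + max (5 * r) (max (2 * p) (p + q))

end Pool.Agent.Helper79.PN
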