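import Pool.Agent.Helper79.PN.Stmts

set_option autoImplicit false

/-!
Statements of the project PN, second part: sums over the lattice and operators.
-/

open scoped Classical

namespace Pool.Agent.Helper79.PN

/-- special faces: `u` at the vertex of degree 3, `a` at the opposite vertex -/
noncomputable def BL (P : Pen) (u a : Lam → ℝ) : ℝ := ∑' z : Lam × ZMod 5,
  (ind (X1 P z.1 z.2) * (u (z.1 + e (z.2 + 1)) * a (z.1 + e (z.2 - 2)) +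
      u (z.1 + e (z.2 - 1)) * a (z.1 + e (z.2 + 2)) +
      u (z.1 + e (z.2 + 2) + e (z.2 - 2)) * a z.1) +
    ind (T1 P z.1 z.2) * (u z.1 * a (z.1 + e (z.2 + 1) + e (z.2 - 1))))

/-- special faces: the opposite vertex and the third neighbour of the vertex of degree 3 -/
noncomputable def ZL (P : Pen) (a : Lam → ℝ) : ℝ := ∑' z : Lam × ZMod 5,
  (ind (X1 P z.1 z.2) * (a (z.1 + e (z.2 - 2)) * a (z.1 + e (z.2 + 1) + e (z.2 - 1)) +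
      a (z.1 + e (z.2 + 2)) * a (z.1 + e (z.2 + 1) + e (z.2 - 1)) +
      a z.1 * a (z.1 + e (z.2 + 2) + e (z.2 - 2) + e z.2)) +
    ind (T1 P z.1 z.2) * (a (z.1 + e (z.2 + 1) + e (z.2 - 1)) * a (z.1 + e z.2)))

/-- special faces: the opposite vertex and the two other vertices -/
noncomputable def SL (P : Pen) (a : Lam → ℝ) : ℝ := ∑' z : Lam × ZMod 5,
  (ind (X1 P z.1 z.2) * (a (z.1 + e (z.2 - 2)) * (a z.1 + a (z.1 + e (z.2 + 1) + e (z.2 - 2))) +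
      a (z.1 + e (z.2 + 2)) * (a z.1 + a (z.1 + e (z.2 - 1) + e (z.2 + 2))) +
      a z.1 * (a (z.1 + e (z.2 + 2)) + a (z.1 + e (z.2 - 2)))) +
    ind (T1 P z.1 z.2) * (a (z.1 + e (z.2 + 1) + e (z.2 - 1)) *
      (a (z.1 + e (z.2 + 1)) + a (z.1 + e (z.2 - 1)))))

/-- half of the edges -/
noncomputable def ED (P : Pen) (a : Lam → ℝ) : ℝ := ∑' z : Lam × ZMod 5,
  (ind (P.n z.1 = 1) + ind (P.n z.1 = 2 ∧ P.h z.1 z.2 < -1 / 2)) * (a z.1 * a (z.1 + e z.2))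

/-- reflected function -/
def ng (a : Lam → ℝ) : Lam → ℝ := fun K => a (-K)

/-- `(-H - 3 - s) f` -/
noncomputable def uu (P : Pen) (s : ℝ) (f : Lam → ℝ) (K : Lam) : ℝ :=
  ind (InV P K) * ((dg P K - 3 - s) * f K - adj f K)

/-- part of `f` on the vertices of degree at least 4 -/
noncomputable def pa (P : Pen) (f : Lam → ℝ) (K : Lam) : ℝ := if IsT P K then 0 else f K

/-- part of `f` on the vertices of degree 3 -/
noncomputable def pb (P : Pen) (f : Lam → ℝ) (K : Lam) : ℝ := if IsT P K then f K else 0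

/-! ### sums -/

/-- SMT: tools for sums over `Lam × ZMod 5` -/
def ST_SMT : Prop :=
  (∀ (a : Lam → ℝ), Sq a → Sq (ng a) ∧ ∑' K, ng a K ^ 2 = ∑' K, a K ^ 2) ∧
  (∀ (a b : Lam → ℝ) (c : Lam × ZMod 5 → ℝ) (φ ψ : ZMod 5 → Lam), Sq a → Sq b →
    (∀ z, |c z| ≤ 1) → Summable fun z : Lam × ZMod 5 =>
      c z * (a (z.1 + φ z.2) * b (z.1 + ψ z.2))) ∧
  (∀ (a b : Lam → ℝ) (c : Lam × ZMod 5 → ℝ) (φ ψ : ZMod 5 → Lam), Sq a → Sq b →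
    (∀ z, 0 ≤ c z) → (∀ z, c z ≤ 1) → ∀ p q : ℝ, 0 ≤ p → 0 ≤ q → 1 ≤ 4 * (p * q) →
    -(p * ∑' K, (∑ m, c (K - φ m, m)) * a K ^ 2 + q * ∑' K, (∑ m, c (K - ψ m, m)) * b K ^ 2) ≤
      ∑' z : Lam × ZMod 5, c z * (a (z.1 + φ z.2) * b (z.1 + ψ z.2))) ∧
  (∀ (F : Lam × ZMod 5 → ℝ) (φ : ZMod 5 → Lam) (t : ZMod 5),
    ∑' z : Lam × ZMod 5, F (z.1 + φ z.2, z.2 + t) = ∑' z, F z)

/-- ADJ: the adjacency operator -/
def ST_ADJ : Prop :=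
  (∀ a : Lam → ℝ, Sq a → Sq (adj a)) ∧
  (∀ a b : Lam → ℝ, Sq a → Sq b → ∑' K, a K * adj b K = ∑' K, b K * adj a K) ∧
  (∀ a : Lam → ℝ, Sq a → ∑' K, a K * adj a K =
    2 * ∑' z : Lam × ZMod 5, a z.1 * a (z.1 + e z.2)) ∧
  (∀ (P : Pen) (K : Lam), 0 ≤ dg P K ∧ dg P K ≤ 10 ∧ dg P.mir (-K) = dg P K) ∧
  (∀ (a : Lam → ℝ) (K : Lam), adj (ng a) (-K) = adj a K)

/-- LOW: the special faces and the edges -/
def ST_LOW : Prop := ∀ (P : Pen) (a : Lam → ℝ), Sq a → Sup4 P a → SL P a = 2 * ED P a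

/-- EDG: all edges -/
def ST_EDG : Prop := ∀ (P : Pen) (a : Lam → ℝ), Sq a → Sup4 P a →
  ∑' K, a K * adj a K = 2 * (ED P a + ED P.mir (ng a))

/-- BLX: the form `BL` applied to `(-H - 3 - s) f` -/
def ST_BLX : Prop := ∀ (P : Pen) (s : ℝ) (f : Lam → ℝ), Sq f → Sup P f →
  BL P (uu P s f) (pa P f) = -(s * BL P (pb P f) (pa P f)) - (SL P (pa P f) + ZL P (pa P f))

/-- EXP: the quadratic form -/
def ST_EXP : Prop := ∀ (P : Pen) (s : ℝ) (f : Lam → ℝ), Sq f → Sup P f →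
  ∑' K, uu P s f K * pa P f K - ∑' K, uu P s f K * pb P f K - BL P (uu P s f) (pa P f) -
      BL P.mir (ng (uu P s f)) (ng (pa P f)) =
    ∑' K, (dg P K - 3 - s) * pa P f K ^ 2 + s * ∑' K, pb P f K ^ 2 +
      s * (BL P (pb P f) (pa P f) + BL P.mir (ng (pb P f)) (ng (pa P f))) +
      (ZL P (pa P f) + ZL P.mir (ng (pa P f)))

/-- LBL: lower bound for one half of the special faces -/
def ST_LBL : Prop := ∀ (P : Pen) (s : ℝ) (a b : Lam → ℝ), 0 ≤ s → Sq a → Sq b →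
  -(25 / 26 * s * ∑' K, (∑ m, (ind (X1 P (K - e (m + 1)) m) + ind (X1 P (K - e (m - 1)) m) +
        ind (X1 P (K - (e (m + 2) + e (m - 2))) m) + ind (T1 P K m))) * b K ^ 2) -
    ∑' K, ((13 / 50 * s + 1 / 2) * ∑ m, (ind (X1 P (K - e (m - 2)) m) +
          ind (X1 P (K - e (m + 2)) m)) +
        (13 / 50 * s + 18 / 25) * ∑ m, ind (X1 P K m) +
        (13 / 50 * s + 3 / 10) * ∑ m, ind (T1 P (K - (e (m + 1) + e (m - 1))) m) +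
        1 * ∑ m, ind (X1 P (K - (e (m + 1) + e (m - 1))) m) +
        25 / 72 * ∑ m, ind (X1 P (K - (e (m + 2) + e (m - 2) + e m)) m) +
        5 / 6 * ∑ m, ind (T1 P (K - e m) m)) * a K ^ 2 ≤
    s * BL P b a + ZL P a

/-- LBD: coercivity -/
def ST_LBD : Prop := ∀ (P : Pen) (s : ℝ) (a b : Lam → ℝ), 0 < s → s ≤ 1 / 5 → Sq a → Sq b →
  Sup4 P a → (∀ K, ¬ IsT P K → b K = 0) →
  s / 100 * (∑' K, a K ^ 2 + ∑' K, b K ^ 2) ≤
    ∑' K, (dg P K - 3 - s) * a K ^ 2 + s * ∑' K, b K ^ 2 +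
      s * (BL P b a + BL P.mir (ng b) (ng a)) + (ZL P a + ZL P.mir (ng a))

/-- BLB: the form `BL` is bounded -/
def ST_BLB : Prop := ∀ (P : Pen) (u a : Lam → ℝ) (ε : ℝ), Sq u → Sq a → 0 < ε →
  |BL P u a| ≤ 10 * (ε * ∑' K, a K ^ 2 + ε⁻¹ * ∑' K, u K ^ 2)

/-- INQ: the operator `-H - 3 - s` is bounded below on real functions -/
def ST_INQ : Prop := ∀ s : ℝ, 0 < s → s ≤ 1 / 5 → ∃ C : ℝ, 0 < C ∧ ∀ (P : Pen) (f : Lam → ℝ),
  Sq f → Sup P f → ∑' K, f K ^ 2 ≤ C * ∑' K, uu P s f K ^ 2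

/-! ### operators -/

/-- EGA: ten vertices of degree 3 around a point of index 2 near the centre of its window -/
def ST_EGA : Prop := ∀ (P : Pen) (c : Lam), P.n c = 2 → (∀ j, |P.h c j| < 1 / 10) →
  ∀ f : Lam → ℝ, (∀ K, f K = ∑ k, (ind (K = c + e k - e (k + 1)) -
    ind (K = c + e k - e (k - 1)))) →
  Sup P f ∧ (∀ K, f K ≠ 0 → dg P K = 3) ∧ (∀ K, InV P K → adj f K = 0) ∧ ∃ K, f K ≠ 0

/-- extension by zero -/
noncomputable def ex (θ : ℂ) (φ : Vert θ → ℝ) (K : Lam) : ℝ :=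
  if h : Acc θ K then φ ⟨K, h⟩ else 0

/-- NBX: sums over the neighbours of a vertex -/
def ST_NBX : Prop := ∀ (θ : ℂ) (v : Vert θ),
  (∀ φ : Vert θ → ℝ, ∑ w ∈ nbV θ v, φ w = adj (ex θ φ) v.1) ∧
  ((nbV θ v).card : ℝ) = adj (fun K => ind (Acc θ K)) v.1 ∧ v ∉ nbV θ v ∧
  ∀ w : Vert θ, w ∈ nbV θ v ↔ v ∈ nbV θ w

/-- PEN: the tilings define abstract tiling data -/
def ST_PEN : Prop := ∀ θ : ℂ, NonSing θ → ∃ P : Pen, (∀ K, P.n K = lvl K) ∧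
  (∀ K j, P.h K j = hh θ K j) ∧ ∀ K, InV P K ↔ Acc θ K

/-- OPX: the graph Laplacian exists and is self-adjoint -/
def ST_OPX : Prop := ∀ θ : ℂ, ∃ H : Hil θ →L[ℂ] Hil θ, IsLap θ H ∧ IsSelfAdjoint H ∧
  ∀ H' : Hil θ →L[ℂ] Hil θ, IsLap θ H' → H' = H

/-- UNI: self-adjoint operators bounded below are invertible -/
def ST_UNI : Prop := ∀ (E : Type) [NormedAddCommGroup E] [InnerProductSpace ℂ E] [CompleteSpace E]
  (T : E →L[ℂ] E) (c : ℝ), IsSelfAdjoint T → 0 < c → (∀ x, c * ‖x‖ ≤ ‖T x‖) → IsUnit T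

/-- SPC: spectrum and quadratic form of a self-adjoint operator -/
def ST_SPC : Prop := ∀ (E : Type) [NormedAddCommGroup E] [InnerProductSpace ℂ E] [CompleteSpace E]
  (T : E →L[ℂ] E) (x : E) (μ ν : ℝ), IsSelfAdjoint T → ‖x‖ = 1 → ν < μ →
  (inner ℂ x (T x) : ℂ) = (ν : ℂ) → ∃ E' : ℝ, E' < μ ∧ (E' : ℂ) ∈ spectrum ℂ T

/-- RES: the gap -/
def ST_RES : Prop := ∀ (θ : ℂ) (H : Hil θ →L[ℂ] Hil θ) (E : ℝ), NonSing θ → IsLap θ H →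
  -16 / 5 ≤ E → E < -3 → (E : ℂ) ∉ spectrum ℂ H

/-- DEN: internal coordinates are dense -/
def ST_DEN : Prop := ∀ (θ y : ℂ) (n : ℤ) (ε : ℝ), 0 < ε → ∃ K : Lam, lvl K = n ∧
  ‖yy θ K - y‖ < ε

/-- EIG: `-3` is an eigenvalue -/
def ST_EIG : Prop := ∀ (θ : ℂ) (H : Hil θ →L[ℂ] Hil θ), NonSing θ → IsLap θ H →
  ∃ ψ : Hil θ, ψ ≠ 0 ∧ H ψ = (-3 : ℂ) • ψ

/-- BEL: there is spectrum below the gap -/
def ST_BEL : Prop := ∀ (θ : ℂ) (H : Hil θ →L[ℂ] Hil θ), NonSing θ → IsLap θ H →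
  ∃ E : ℝ, E < -16 / 5 ∧ (E : ℂ) ∈ spectrum ℂ H

/-- NSX: nonsingular parameters exist -/
def ST_NSX : Prop := ∃ θ : ℂ, NonSing θ

end Pool.Agent.Helper79.PN
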